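import Pool.Agent.JH.Expand
import Pool.Agent.JH.Uniq

/-!
# MP_3ffdb9_co: Question 1 for hook shapes

`IsJack a μ N J` (`Pool/Agent/JH/Jack.lean`): `J` is the Jack polynomial `J_μ^(a)(x_0, …, x_(N-1))`.
`fund N n S` (`Pool/Agent/JH/Words.lean`): Gessel's fundamental quasisymmetric polynomial.
-/

set_option autoImplicit false

open MvPolynomial

namespace Pool.Agent.Results.MP_3ffdb9_co.HookShapes

open Pool.Agent.JH

/-- **Q1 for all hook shapes.** `μ` is a non-empty Young diagram without the cell `(1, 1)`,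
`n = |μ|`. For every `N` and `α > 0` there is exactly one Jack polynomial `J_μ^(1/α)` in `N`
variables, and `α ^ n J_μ^(1/α) = ∑_k ∑_S c_(k,S) α (α - 1) ⋯ (α - k + 1) F_S` with natural numbers
`c_(k,S)` (independent of `N` and `α`) such that `∑_S c_(k,S) = n! S(n, k)` for all `k`. -/
theorem result (μ : YoungDiagram) (h0 : (0, 0) ∈ μ) (h1 : (1, 1) ∉ μ) :
    (∀ (N : ℕ) (α : ℝ), 0 < α → ∃! J : MvPolynomial (Fin N) ℝ, IsJack α⁻¹ μ N J) ∧
    ∃ c : ℕ → Finset ℕ → ℕ,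
      (∀ k, ∑ S ∈ (Finset.Icc 1 (μ.card - 1)).powerset, c k S =
        μ.card.factorial * Nat.stirlingSecond μ.card k) ∧
      ∀ (N : ℕ) (α : ℝ), 0 < α → ∀ J : MvPolynomial (Fin N) ℝ, IsJack α⁻¹ μ N J →
        C (α ^ μ.card) * J =
          ∑ k ∈ Finset.range (μ.card + 1), ∑ S ∈ (Finset.Icc 1 (μ.card - 1)).powerset,
            C ((c k S : ℝ) * (descPochhammer ℝ k).eval α) * fund N μ.card S := by
  have hex := fun (N : ℕ) (α : ℝ) (hα : 0 < α) => isJack_hook h0 h1 N α hα.ne'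
  refine ⟨fun N α hα => ⟨_, hex N α hα, fun J hJ =>
    hJ.unique (inv_nonneg.mpr hα.le) (hex N α hα)⟩, ?_⟩
  obtain ⟨c, hc1, hc2⟩ := hook_expand h0 h1
  refine ⟨c, hc1, fun N α hα J hJ => ?_⟩
  rw [hJ.unique (inv_nonneg.mpr hα.le) (hex N α hα)]
  exact hc2 N α hα.ne'

end Pool.Agent.Results.MP_3ffdb9_co.HookShapes
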